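import Pool.Agent.helper4.GA.Spec

/-! MP_3c0a64_an, row ga:PT2: the average over the patterns. -/

set_option autoImplicit false

open Finset
open Pool.Agent.helper32.Cant

namespace Pool.Agent.GA

theorem PT2_exp (x : ℝ) (h0 : 0 ≤ x) (h1 : x ≤ 1) :
    Real.exp (-(2 * x / 3)) ≤ 1 - 2 / 5 * x := by
  rw [Real.exp_neg]
  have h2 : 1 + 2 * x / 3 ≤ Real.exp (2 * x / 3) := by
    have := Real.add_one_le_exp (2 * x / 3)
    linarith
  have hpos : 0 < 1 + 2 * x / 3 := by positivity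
  have h3 : (Real.exp (2 * x / 3))⁻¹ ≤ (1 + 2 * x / 3)⁻¹ := inv_anti₀ hpos h2
  refine h3.trans ?_
  rw [inv_le_iff_one_le_mul₀ hpos]
  nlinarith [mul_nonneg h0 (sub_nonneg.2 h1)]

theorem PT2_blk (g : ℕ) (i : Fin (2 * g)) (x : ℝ) (h0 : 0 ≤ x) (h1 : x ≤ 1) :
    ∑ j : Fin (2 * g), Real.exp (-(1 / 3 * (ind ((i : ℕ) ≤ (j : ℕ) + g) * x))) ^ 2 ≤
      2 * g - 2 / 5 * g * x := by
  have hterm : ∀ j : Fin (2 * g),
      Real.exp (-(1 / 3 * (ind ((i : ℕ) ≤ (j : ℕ) + g) * x))) ^ 2 ≤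
        1 - 2 / 5 * x * (if g ≤ (j : ℕ) then 1 else 0) := by
    intro j
    rw [← Real.exp_nat_mul]
    by_cases hj : (i : ℕ) ≤ (j : ℕ) + g
    · have e1 : ind ((i : ℕ) ≤ (j : ℕ) + g) = 1 := if_pos hj
      rw [e1]
      have e2 : ((2 : ℕ) : ℝ) * -(1 / 3 * (1 * x)) = -(2 * x / 3) := by push_cast; ring
      rw [e2]
      refine (PT2_exp x h0 h1).trans ?_
      split_ifs
      · linarith
      · linarith
    · have e1 : ind ((i : ℕ) ≤ (j : ℕ) + g) = 0 := if_neg hj
      have hg' : ¬ g ≤ (j : ℕ) := by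
        have := i.2
        omega
      rw [e1, if_neg hg']
      have e2 : ((2 : ℕ) : ℝ) * -(1 / 3 * (0 * x)) = 0 := by ring
      rw [e2, Real.exp_zero]
      linarith
  refine (Finset.sum_le_sum fun j _ => hterm j).trans ?_
  rw [Finset.sum_sub_distrib, ← Finset.mul_sum]
  have h2 : ∑ j : Fin (2 * g), (if g ≤ (j : ℕ) then (1 : ℝ) else 0) = g := by
    rw [Fin.sum_univ_eq_sum_range (fun j => if g ≤ j then (1 : ℝ) else 0) (2 * g), two_mul,
      Finset.sum_range_add]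
    have h3 : ∑ x ∈ range g, (if g ≤ x then (1 : ℝ) else 0) = 0 :=
      Finset.sum_eq_zero fun x hx => if_neg (by rw [Finset.mem_range] at hx; omega)
    have h4 : ∑ x ∈ range g, (if g ≤ g + x then (1 : ℝ) else 0) = g := by
      rw [Finset.sum_congr rfl fun x _ => if_pos (Nat.le_add_right g x)]
      simp
    rw [h3, h4, zero_add]
  rw [h2]
  simp only [Finset.sum_const, Finset.card_univ, Fintype.card_fin, nsmul_eq_mul, mul_one]
  push_cast
  linarith

theorem PT2_sum (g : ℕ) (ω : ℕ → ℝ) (T : ℕ) :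
    ∑ t ∈ range T, ∑ i : Fin (2 * g), ω (2 * g * t + i) = ∑ i ∈ range (2 * g * T), ω i := by
  induction T with
  | zero => simp
  | succ T ih =>
    rw [Finset.sum_range_succ, ih, mul_add, mul_one, Finset.sum_range_add]
    congr 1
    exact Fin.sum_univ_eq_sum_range (fun i => ω (2 * g * T + i)) (2 * g)

theorem PT2 (hCHN : CHN_stmt) (hPT1 : PT1_stmt) : PT2_stmt := by
  intro g κ T ω hg hκ hω
  let φ : ℕ → Fin (2 * g) → Fin (2 * g) → ℝ := fun t i j =>
    Real.exp (-(1 / 3 * (ind ((i : ℕ) ≤ (j : ℕ) + g) * ω (2 * g * t + i))))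
  have hgr : (1 : ℝ) ≤ g := by exact_mod_cast hg
  have hsum : ∀ o : Fin (T + 1) → Fin (2 * g),
      Real.exp (-(((pat g κ o).dropLast.map ω).sum / 3)) =
        ∏ t : Fin T, φ t (o t.castSucc) (o t.succ) := by
    intro o
    rw [(hPT1 g κ T o hg hκ).2.2.2.2.2 ω, Finset.sum_div, ← Finset.sum_neg_distrib, Real.exp_sum,
      ← Fin.prod_univ_eq_prod_range (fun t => Real.exp (-(ind (pick g o t + g ≤ pick g o (t + 1)) *
        ω (pick g o t) / 3))) T]
    refine Finset.prod_congr rfl fun t _ => ?_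
    have ht : (t : ℕ) < T + 1 := by have := t.2; omega
    have ht1 : (t : ℕ) + 1 < T + 1 := by have := t.2; omega
    have e1 : pick g o t = 2 * g * t + (o t.castSucc : ℕ) := by
      unfold pick
      rw [dif_pos ht]
      rfl
    have e2 : pick g o ((t : ℕ) + 1) = 2 * g * (t + 1) + (o t.succ : ℕ) := by
      unfold pick
      rw [dif_pos ht1]
      rfl
    show _ = Real.exp (-(1 / 3 * (ind (((o t.castSucc : Fin (2 * g)) : ℕ) ≤ (o t.succ : ℕ) + g) *
      ω (2 * g * t + (o t.castSucc : ℕ)))))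
    have e3 : (pick g o t + g ≤ pick g o ((t : ℕ) + 1)) =
        (((o t.castSucc : Fin (2 * g)) : ℕ) ≤ (o t.succ : ℕ) + g) := by
      rw [e1, e2, mul_add, mul_one]
      apply propext
      constructor
      · intro h
        omega
      · intro h
        omega
    rw [e3, e1]
    congr 1
    ring
  rw [Finset.sum_congr rfl fun o _ => hsum o]
  refine (hCHN (2 * g) T φ (fun t i j => (Real.exp_pos _).le)).trans ?_
  have hS0 : ∀ t : ℕ, 0 ≤ ∑ i : Fin (2 * g), ω (2 * g * t + i) := fun t =>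
    Finset.sum_nonneg fun i _ => (hω _).1
  have hblk : ∀ t : ℕ, √(∑ i, ∑ j, φ t i j ^ 2) ≤
      2 * g * Real.exp (-((∑ i : Fin (2 * g), ω (2 * g * t + i)) / (20 * g))) := by
    intro t
    apply Real.sqrt_le_iff.2
    refine ⟨by positivity, ?_⟩
    have h1 : ∑ i, ∑ j, φ t i j ^ 2 ≤ ∑ i : Fin (2 * g), (2 * g - 2 / 5 * g * ω (2 * g * t + i)) :=
      Finset.sum_le_sum fun i _ => PT2_blk g i _ (hω _).1 (hω _).2
    refine h1.trans ?_
    have h1' : ∑ i : Fin (2 * g), (2 * g - 2 / 5 * g * ω (2 * g * t + i)) =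
        (2 * g : ℝ) * (2 * g) - 2 / 5 * g * ∑ i : Fin (2 * g), ω (2 * g * t + i) := by
      rw [Finset.sum_sub_distrib, Finset.mul_sum (Finset.univ : Finset (Fin (2 * g)))
        (fun i => ω (2 * g * t + i)) (2 / 5 * (g : ℝ))]
      simp only [Finset.sum_const, Finset.card_univ, Fintype.card_fin, nsmul_eq_mul]
      push_cast
      ring
    rw [h1']
    set S := ∑ i : Fin (2 * g), ω (2 * g * t + i) with hS
    have h2 : -(S / (10 * g)) + 1 ≤ Real.exp (-(S / (10 * g))) := Real.add_one_le_exp _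
    have h3 : (2 * g * Real.exp (-(S / (20 * g)))) ^ 2 =
        (2 * g : ℝ) ^ 2 * Real.exp (-(S / (10 * g))) := by
      rw [mul_pow, ← Real.exp_nat_mul]
      congr 2
      push_cast
      field_simp
      ring
    rw [h3]
    have h4 : (2 * g : ℝ) * (2 * g) - 2 / 5 * g * S = (2 * g : ℝ) ^ 2 * (-(S / (10 * g)) + 1) := by
      field_simp
      ring
    rw [h4]
    exact mul_le_mul_of_nonneg_left h2 (by positivity)
  have hprod : ∏ t ∈ range T, √(∑ i, ∑ j, φ t i j ^ 2) ≤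
      ∏ t ∈ range T, (2 * g * Real.exp (-((∑ i : Fin (2 * g), ω (2 * g * t + i)) / (20 * g)))) :=
    Finset.prod_le_prod (fun t _ => Real.sqrt_nonneg _) (fun t _ => hblk t)
  rw [Finset.prod_mul_distrib, Finset.prod_const, Finset.card_range, ← Real.exp_sum,
    Finset.sum_neg_distrib, ← Finset.sum_div, PT2_sum] at hprod
  have h5 : ((2 * g : ℕ) : ℝ) * ∏ t ∈ range T, √(∑ i, ∑ j, φ t i j ^ 2) ≤
      (2 * g : ℝ) * ((2 * g : ℝ) ^ T * Real.exp (-((∑ i ∈ range (2 * g * T), ω i) / (20 * g)))) := by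
    push_cast
    exact mul_le_mul_of_nonneg_left hprod (by positivity)
  refine h5.trans (le_of_eq ?_)
  rw [pow_succ]
  ring

end Pool.Agent.GA
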